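import Pool.Agent.R186.Fox.Cert
import Pool.Agent.R186.Fox.AData

/-!
# Certificate A for Fox and Geese (kernel check, part 1)
-/

set_option autoImplicit false

namespace Pool.Agent.R186.Fox.ACheck

open AData

theorem h16 : c16.all (chkA AData.table) = true := by decide +kernel

theorem h17 : c17.all (chkA AData.table) = true := by decide +kernel

theorem h18 : c18.all (chkA AData.table) = true := by decide +kernel

theorem h19 : c19.all (chkA AData.table) = true := by decide +kernel

theorem h20 : c20.all (chkA AData.table) = true := by decide +kernel

theorem h21 : c21.all (chkA AData.table) = true := by decide +kernel

theorem h22 : c22.all (chkA AData.table) = true := by decide +kernel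

theorem h23 : c23.all (chkA AData.table) = true := by decide +kernel

theorem h24 : c24.all (chkA AData.table) = true := by decide +kernel

theorem h25 : c25.all (chkA AData.table) = true := by decide +kernel

theorem h26 : c26.all (chkA AData.table) = true := by decide +kernel

theorem h27 : c27.all (chkA AData.table) = true := by decide +kernel

theorem h28 : c28.all (chkA AData.table) = true := by decide +kernel

theorem h29 : c29.all (chkA AData.table) = true := by decide +kernel

theorem h30 : c30.all (chkA AData.table) = true := by decide +kernel

theorem h31 : c31.all (chkA AData.table) = true := by decide +kernel

end Pool.Agent.R186.Fox.ACheck
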