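import Pool.Agent.R186.Fox.Cert
import Pool.Agent.R186.Fox.AData

/-!
# Certificate A for Fox and Geese (kernel check, part 2)
-/

set_option autoImplicit false

namespace Pool.Agent.R186.Fox.ACheck

open AData

theorem h32 : c32.all (chkA AData.table) = true := by decide +kernel

theorem h33 : c33.all (chkA AData.table) = true := by decide +kernel

theorem h34 : c34.all (chkA AData.table) = true := by decide +kernel

theorem h35 : c35.all (chkA AData.table) = true := by decide +kernel

theorem h36 : c36.all (chkA AData.table) = true := by decide +kernel

theorem h37 : c37.all (chkA AData.table) = true := by decide +kernel

theorem h38 : c38.all (chkA AData.table) = true := by decide +kernel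

theorem h39 : c39.all (chkA AData.table) = true := by decide +kernel

theorem h40 : c40.all (chkA AData.table) = true := by decide +kernel

theorem h41 : c41.all (chkA AData.table) = true := by decide +kernel

theorem h42 : c42.all (chkA AData.table) = true := by decide +kernel

theorem h43 : c43.all (chkA AData.table) = true := by decide +kernel

theorem h44 : c44.all (chkA AData.table) = true := by decide +kernel

theorem h45 : c45.all (chkA AData.table) = true := by decide +kernel

theorem h46 : c46.all (chkA AData.table) = true := by decide +kernel

theorem h47 : c47.all (chkA AData.table) = true := by decide +kernel

end Pool.Agent.R186.Fox.ACheck
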