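import Pool.Agent.R186.Fox.Cert
import Pool.Agent.R186.Fox.AData

/-!
# Certificate A for Fox and Geese (kernel check, part 3)
-/

set_option autoImplicit false

namespace Pool.Agent.R186.Fox.ACheck

open AData

theorem h48 : c48.all (chkA AData.table) = true := by decide +kernel

theorem h49 : c49.all (chkA AData.table) = true := by decide +kernel

theorem h50 : c50.all (chkA AData.table) = true := by decide +kernel

theorem h51 : c51.all (chkA AData.table) = true := by decide +kernel

theorem h52 : c52.all (chkA AData.table) = true := by decide +kernel

theorem h53 : c53.all (chkA AData.table) = true := by decide +kernel

theorem h54 : c54.all (chkA AData.table) = true := by decide +kernel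

theorem h55 : c55.all (chkA AData.table) = true := by decide +kernel

theorem h56 : c56.all (chkA AData.table) = true := by decide +kernel

theorem h57 : c57.all (chkA AData.table) = true := by decide +kernel

theorem h58 : c58.all (chkA AData.table) = true := by decide +kernel

theorem h59 : c59.all (chkA AData.table) = true := by decide +kernel

theorem h60 : c60.all (chkA AData.table) = true := by decide +kernel

theorem h61 : c61.all (chkA AData.table) = true := by decide +kernel

theorem h62 : c62.all (chkA AData.table) = true := by decide +kernel

theorem h63 : c63.all (chkA AData.table) = true := by decide +kernel

end Pool.Agent.R186.Fox.ACheck
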