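import Pool.Agent.R186.Fox.ACheck0
import Pool.Agent.R186.Fox.ACheck1
import Pool.Agent.R186.Fox.ACheck2
import Pool.Agent.R186.Fox.ACheck3

/-!
# Certificate A for Fox and Geese (kernel check, all parts)
-/

set_option autoImplicit false

namespace Pool.Agent.R186.Fox.ACheck

open AData

theorem allNode {p : ℕ → ℕ → Bool} {l r : NatMap} {k v : ℕ} (h : p k v = true)
    (hl : l.all p = true) (hr : r.all p = true) : (NatMap.node l k v r).all p = true := by
  rw [NatMap.all, h, hl, hr]
  rfl

theorem all : table.all (chkA AData.table) = true :=
  (allNode (by decide +kernel) (allNode (by decide +kernel) (allNode (by decide +kernel) (allNode (by decide +kernel) (allNode (by decide +kernel) (allNode (by decide +kernel) h0 h1) (allNode (by decide +kernel) h2 h3)) (allNode (by decide +kernel) (allNode (by decide +kernel) h4 h5) (allNode (by decide +kernel) h6 h7))) (allNode (by decide +kernel) (allNode (by decide +kernel) (allNode (by decide +kernel) h8 h9) (allNode (by decide +kernel) h10 h11)) (allNode (by decide +kernel) (allNode (by decide +kernel) h12 h13) (allNode (by decide +kernel) h14 h15)))) (allNode (by decide +kernel) (allNode (by decide +kernel) (allNode (by decide +kernel) (allNode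 (by decide +kernel) h16 h17) (allNode (by decide +kernel) h18 h19)) (allNode (by decide +kernel) (allNode (by decide +kernel) h20 h21) (allNode (by decide +kernel) h22 h23))) (allNode (by decide +kernel) (allNode (by decide +kernel) (allNode (by decide +kernel) h24 h25) (allNode (by decide +kernel) h26 h27)) (allNode (by decide +kernel) (allNode (by decide +kernel) h28 h29) (allNode (by decide +kernel) h30 h31))))) (allNode (by decide +kernel) (allNode (by decide +kernel) (allNode (by decide +kernel) (allNode (by decide +kernel) (allNode (by decide +kernel) h32 h33) (allNode (by decide +kernel) h34 h35)) (allNode (by decide +kernel) (allNode (by decide +kernel) h36 h37) (allNode (by decide +kernel) h38 h39))) (allNode (by decide +kernel) (allNode (by decide +kernel) (allNode (by decide +kernel) h40 h41) (allNode (by decide +kernel) h42 h43)) (allNode (by decide +kernel) (allNode (by decide +kernel) h44 h45) (allNode (by decide +kernel) h46 h47)))) (allNode (by decide +kernel) (allNode (by decide +kernel) (allNode (by decide +kernel) (allNode (by decide +kernel) h48 h49) (allNode (by decide +kernel) h50 h51)) (allNode (by decide +kernel) (allNode (by decide +kernel) h52 h53) (allNode (by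 decide +kernel) h54 h55))) (allNode (by decide +kernel) (allNode (by decide +kernel) (allNode (by decide +kernel) h56 h57) (allNode (by decide +kernel) h58 h59)) (allNode (by decide +kernel) (allNode (by decide +kernel) h60 h61) (allNode (by decide +kernel) h62 h63))))))

end Pool.Agent.R186.Fox.ACheck
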