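import Pool.Agent.R186.Fox.Rep

/-!
# The certificates for Fox and Geese, and their soundness
-/

set_option autoImplicit false

namespace Pool.Agent.R186.Fox

/-- the level of a position of the value game -/
def lev : Val → ℕ
  | .top => 3
  | .two => 2
  | .one => 1
  | .zero => 0

/-! ### Certificate A: the geese survive -/

/-- a goose move to a position in the table -/
def okA (ta : NatMap) (m f k c : ℕ) : Bool :=
  bif gOk m f (Nat.div c 64) (Nat.mod c 64) then
    has ta (Nat.add (Nat.mul (Nat.add (Nat.mul (mv m (Nat.div c 64) (Nat.mod c 64)) 64) f) 4) k)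
  else false

/-- the test for certificate A, decoded -/
def chkA' (ta : NatMap) (m f k v : ℕ) : Bool :=
  bif allF m f (fun t => anyD 8192 (okA ta m t k) 8 v) then
    (bif Nat.beq k 0 then true else anyD 8192 (okA ta m f (Nat.pred k)) 8 v) else false

/-- the test for certificate A -/
def chkA (ta : NatMap) (key v : ℕ) : Bool :=
  chkA' ta (Nat.div key 256) (Nat.mod (Nat.div key 4) 64) (Nat.mod key 4) v

theorem decode4 {m f k : ℕ} (hf : f < 64) (hk : k < 4) :
    Nat.div (Nat.add (Nat.mul (Nat.add (Nat.mul m 64) f) 4) k) 256 = m ∧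
    Nat.mod (Nat.div (Nat.add (Nat.mul (Nat.add (Nat.mul m 64) f) 4) k) 4) 64 = f ∧
    Nat.mod (Nat.add (Nat.mul (Nat.add (Nat.mul m 64) f) 4) k) 4 = k := by
  refine ⟨?_, ?_, ?_⟩
  · show ((m * 64 + f) * 4 + k) / 256 = m
    omega
  · show (((m * 64 + f) * 4 + k) / 4) % 64 = f
    omega
  · show ((m * 64 + f) * 4 + k) % 4 = k
    omega

theorem okA_spec {ta : NatMap} (hta : ta.all (chkA ta) = true) {p : Position} {m f k c : ℕ}
    (h : Rep p m f) (hk : k < 4) (ho : okA ta m f k c = true) :
    ∃ q m' v, gooseMove p q ∧ Rep q m' f ∧ chkA' ta m' f k v = true := by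
  unfold okA at ho
  obtain ⟨h1, h2⟩ := bif_tf ho
  obtain ⟨q, hq, hr⟩ := goose_exists h h1
  obtain ⟨v, hv⟩ := has_spec hta h2
  have hf : f < 64 := by rw [← h.fox]; exact idx_lt _
  unfold chkA at hv
  obtain ⟨e1, e2, e3⟩ := decode4 (m := mv m (Nat.div c 64) (Nat.mod c 64)) hf hk
  rw [e1, e2, e3] at hv
  exact ⟨q, _, v, hq, hr, hv⟩

/-- the start mask -/
def m0 : ℕ := 85

theorem start_rep (u : Square) (hu : Dark u) : Rep ⟨start.geese, u⟩ m0 (idx u) := by
  refine ⟨rfl, hu, ?_, ?_⟩
  · show ∀ s, s ∈ ({(0, 0), (2, 0), (4, 0), (6, 0)} : Finset Square) ↔ _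
    decide +kernel
  · show ∀ s ∈ ({(0, 0), (2, 0), (4, 0), (6, 0)} : Finset Square), _
    intro s hs
    simp only [Finset.mem_insert, Finset.mem_singleton] at hs
    rcases hs with rfl | rfl | rfl | rfl <;> rfl

/-- the combos for the first move of the geese -/
def v0 : ℕ := 120907266785864833618231306

/-- the test of the start, for a square of the fox -/
def chkS (ta : NatMap) (f : ℕ) : Bool :=
  bif darkB f then (bif tb m0 f then true else anyD 8192 (okA ta m0 f 2) 10 v0) else true

/-- the positions of the certificate A -/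
def SA (ta : NatMap) (p : Position) (h : Val) : Prop :=
  (h = Val.top ∧ p.geese = start.geese ∧ Dark p.fox ∧ p.fox ∉ p.geese) ∨
    (h ≠ Val.top ∧ ∃ m f v, Rep p m f ∧ chkA' ta m f (lev h) v = true)

theorem surv_A {ta : NatMap} (hta : ta.all (chkA ta) = true)
    (hs : (List.range 64).all (chkS ta) = true) : Surv foxAndGeese valGame (SA ta) := by
  constructor
  · intro (p : Position) (h : Val) (p' : Position) hS hm
    have hm : foxMove p p' := hm
    rcases hS with ⟨rfl, h1, h2, h3⟩ | ⟨hne, m, f, v, hr, hc⟩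
    · right
      refine ⟨Val.top, Val.Right.top, Or.inl ⟨rfl, ?_, ?_, ?_⟩⟩
      · rw [hm.2.2, h1]
      · rcases hm.1 with h4 | h4
        · exact h4.dark.1 h2
        · exact h4.dark.2 h2
      · rw [hm.2.2]
        exact hm.2.1
    · left
      unfold chkA' at hc
      obtain ⟨hc, _⟩ := bif_tf hc
      obtain ⟨t, ht, hc⟩ := fox_all hr hm hc
      obtain ⟨c, hc⟩ := anyD_spec hc
      have hk : lev h < 4 := by cases h <;> decide
      obtain ⟨q, m', v', h1, h2, h3⟩ := okA_spec hta ht hk hc
      exact ⟨q, h1, Or.inr ⟨hne, m', t, v', h2, h3⟩⟩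
  · intro (p : Position) (h : Val) (h' : Val) hS hm
    have hm : Val.Left h h' := hm
    left
    rcases hS with ⟨rfl, h1, h2, h3⟩ | ⟨hne, m, f, v, hr, hc⟩
    · cases hm
      have hp : p = ⟨start.geese, p.fox⟩ := by
        cases p
        simp only at h1
        rw [h1]
      have hr : Rep p m0 (idx p.fox) := by
        rw [hp]
        exact start_rep _ h2
      rw [List.all_eq_true] at hs
      have hc := hs (idx p.fox) (List.mem_range.2 (idx_lt _))
      unfold chkS at hc
      rw [(darkB_idx _).2 h2, cond_true] at hc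
      have h4 : tb m0 (idx p.fox) = false := by
        rw [tb_eq]
        cases h5 : m0.testBit (idx p.fox) with
        | false => rfl
        | true => exact absurd ((hr.geese _).2 h5) h3
      rw [h4, cond_false] at hc
      obtain ⟨c, hc⟩ := anyD_spec hc
      obtain ⟨q, m', v', h5, h6, h7⟩ := okA_spec hta hr (by decide) hc
      exact ⟨q, h5, Or.inr ⟨by simp, m', _, v', h6, h7⟩⟩
    · unfold chkA' at hc
      obtain ⟨_, hc⟩ := bif_tf hc
      cases hm with
      | top => exact absurd rfl hne
      | two =>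
        have hc : anyD 8192 (okA ta m f 1) 8 v = true := hc
        obtain ⟨c, hc⟩ := anyD_spec hc
        obtain ⟨q, m', v', h5, h6, h7⟩ := okA_spec hta hr (by decide) hc
        exact ⟨q, h5, Or.inr ⟨by simp, m', _, v', h6, h7⟩⟩
      | one =>
        have hc : anyD 8192 (okA ta m f 0) 8 v = true := hc
        obtain ⟨c, hc⟩ := anyD_spec hc
        obtain ⟨q, m', v', h5, h6, h7⟩ := okA_spec hta hr (by decide) hc
        exact ⟨q, h5, Or.inr ⟨by simp, m', _, v', h6, h7⟩⟩

/-! ### Certificate B: the fox survives -/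

/-- `2 ^ (8 (W + 1))`: the squares of the ranks `0, ..., W` -/
def wK (W : ℕ) : ℕ := Nat.pow 2 (Nat.mul 8 (Nat.succ W))

/-- the key of a window -/
def wkey (g f W : ℕ) : ℕ := Nat.add (Nat.mul (Nat.add (Nat.mul (Nat.mod g (wK W)) 64) f) 8) W

/-- a reply of the fox inside the window -/
def okW (tw : NatMap) (g f W c : ℕ) : Bool :=
  bif Nat.ble (Nat.mod c 8) W then
    (bif Nat.blt (Nat.div c 8) (Nat.mul 8 (Nat.succ (Nat.mod c 8))) then
      (bif fOk g f (Nat.div c 8) then has tw (wkey g (Nat.div c 8) (Nat.mod c 8)) else false)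
      else false) else false

/-- the test for windows, decoded -/
def chkW' (tw : NatMap) (g f W v : ℕ) : Bool :=
  bif anyD 1024 (okW tw g f W) 8 v then
    allG g f (fun g' => anyD 1024 (okW tw (Nat.mod g' (wK W)) f W) 8 v) fwdList else false

/-- the test for windows -/
def chkW (tw : NatMap) (key v : ℕ) : Bool :=
  chkW' tw (Nat.div key 512) (Nat.mod (Nat.div key 8) 64) (Nat.mod key 8) v

/-- membership in the window table or the main table -/
def inT (tm tw : NatMap) (m f h w : ℕ) : Bool :=
  bif Nat.blt w 8 then has tw (wkey m f w) else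
    has tm (Nat.add (Nat.mul (Nat.add (Nat.mul m 64) f) 4) h)

/-- a reply of the fox player -/
def okM (tm tw : NatMap) (m f h c : ℕ) : Bool :=
  bif Nat.beq (Nat.div c 16) f then
    (bif Nat.beq h 0 then false else inT tm tw m f (Nat.pred h) (Nat.mod c 16))
  else (bif fOk m f (Nat.div c 16) then inT tm tw m (Nat.div c 16) h (Nat.mod c 16) else false)

/-- the test for the main table, decoded -/
def chkM' (tm tw : NatMap) (m f h v : ℕ) : Bool :=
  bif (bif Nat.beq h 3 then anyD 2048 (okM tm tw m f h) 12 v else true) then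
    allG m f (fun m' => anyD 2048 (okM tm tw m' f h) 12 v) fwdList else false

/-- the test for the main table -/
def chkM (tm tw : NatMap) (key v : ℕ) : Bool :=
  chkM' tm tw (Nat.div key 256) (Nat.mod (Nat.div key 4) 64) (Nat.mod key 4) v

/-- the positions of the certificate B -/
def TB (tm tw : NatMap) (h : Val) (p : Position) : Prop :=
  ∃ m f, Rep p m f ∧ ((∃ v, chkM' tm tw m f (lev h) v = true) ∨
    (∃ W v, W < 8 ∧ chkW' tw (Nat.mod m (wK W)) f W v = true))

theorem decode8 {m f k : ℕ} (hf : f < 64) (hk : k < 8) :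
    Nat.div (wkey m f k) 512 = Nat.mod m (wK k) ∧
    Nat.mod (Nat.div (wkey m f k) 8) 64 = f ∧ Nat.mod (wkey m f k) 8 = k := by
  unfold wkey
  generalize Nat.mod m (wK k) = a
  refine ⟨?_, ?_, ?_⟩
  · show ((a * 64 + f) * 8 + k) / 512 = a
    omega
  · show (((a * 64 + f) * 8 + k) / 8) % 64 = f
    omega
  · show ((a * 64 + f) * 8 + k) % 8 = k
    omega

theorem has_win {tw : NatMap} (htw : tw.all (chkW tw) = true) {m f w : ℕ} (hf : f < 64)
    (hw : w < 8) (h : has tw (wkey m f w) = true) :
    ∃ v, chkW' tw (Nat.mod m (wK w)) f w v = true := by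
  obtain ⟨v, hv⟩ := has_spec htw h
  unfold chkW at hv
  obtain ⟨e1, e2, e3⟩ := decode8 (m := m) hf hw
  rw [e1, e2, e3] at hv
  exact ⟨v, hv⟩

theorem TB_of_inT {tm tw : NatMap} (htm : tm.all (chkM tm tw) = true)
    (htw : tw.all (chkW tw) = true) {h : Val} {p : Position} {m f w : ℕ} (hr : Rep p m f)
    (hi : inT tm tw m f (lev h) w = true) : TB tm tw h p := by
  have hf : f < 64 := by rw [← hr.fox]; exact idx_lt _
  refine ⟨m, f, hr, ?_⟩
  unfold inT at hi
  cases h1 : Nat.blt w 8 with
  | true =>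
    rw [h1, cond_true] at hi
    right
    have hw : w < 8 := by rwa [Nat.blt_eq] at h1
    obtain ⟨v, hv⟩ := has_win htw hf hw hi
    exact ⟨w, v, hw, hv⟩
  | false =>
    rw [h1, cond_false] at hi
    left
    obtain ⟨v, hv⟩ := has_spec htm hi
    unfold chkM at hv
    have hk : lev h < 4 := by cases h <;> decide
    obtain ⟨e1, e2, e3⟩ := decode4 (m := m) hf hk
    rw [e1, e2, e3] at hv
    exact ⟨v, hv⟩

theorem wK_eq (W : ℕ) : wK W = 2 ^ (8 * (W + 1)) := rfl

theorem fOk_mod {m f t W : ℕ} (ht : t < 8 * (W + 1)) (h : fOk (Nat.mod m (wK W)) f t = true) :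
    fOk m f t = true := by
  have e : tb (Nat.mod m (wK W)) t = tb m t := by
    rw [tb_eq, tb_eq]
    show (m % wK W).testBit t = _
    rw [wK_eq, Nat.testBit_mod_two_pow]
    simp [ht]
  unfold fOk at h ⊢
  rw [e] at h
  exact h

/-- replies from windows -/
theorem okW_spec {tm tw : NatMap} (htw : tw.all (chkW tw) = true) {p : Position} {m g f W c : ℕ}
    (hr : Rep p m f) (hg : Nat.mod m (wK W) = g) (ho : okW tw g f W c = true) (h : Val) :
    ∃ q, foxMove p q ∧ TB tm tw h q := by
  unfold okW at ho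
  obtain ⟨h1, ho⟩ := bif_tf ho
  obtain ⟨h2, ho⟩ := bif_tf ho
  obtain ⟨h3, ho⟩ := bif_tf ho
  have h1 : c % 8 ≤ W := Nat.le_of_ble_eq_true h1
  rw [Nat.blt_eq] at h2
  have h2 : c / 8 < 8 * (c % 8 + 1) := h2
  subst hg
  have h4 : fOk m f (c / 8) = true := fOk_mod (by omega) h3
  obtain ⟨q, hq, hrq⟩ := fox_exists hr h4
  have hf : c / 8 < 64 := by rw [← hrq.fox]; exact idx_lt _
  have hw : c % 8 < 8 := Nat.mod_lt _ (by norm_num)
  obtain ⟨v, hv⟩ := has_win htw hf hw ho
  have e : Nat.mod (Nat.mod m (wK W)) (wK (Nat.mod c 8)) = Nat.mod m (wK (Nat.mod c 8)) := by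
    show (m % wK W) % wK (c % 8) = m % wK (c % 8)
    rw [wK_eq, wK_eq]
    apply Nat.mod_mod_of_dvd
    apply pow_dvd_pow
    omega
  have hv : chkW' tw (Nat.mod (Nat.mod m (wK W)) (wK (Nat.mod c 8))) (c / 8) (c % 8) v = true :=
    hv
  rw [e] at hv
  exact ⟨q, hq, m, c / 8, hrq, Or.inr ⟨c % 8, v, hw, hv⟩⟩

/-- goose moves seen from a window -/
theorem goose_win {p q : Position} {m f W : ℕ} (h : Rep p m f) (hm : gooseMove p q)
    {c : ℕ → Bool} (hc : allG (Nat.mod m (wK W)) f c fwdList = true) :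
    ∃ m', Rep q m' f ∧ (Nat.mod m' (wK W) = Nat.mod m (wK W) ∨
      ∃ g', c g' = true ∧ Nat.mod m' (wK W) = Nat.mod g' (wK W)) := by
  obtain ⟨s, hs, t, hf, ht, htf, h1, h2⟩ := hm
  obtain ⟨js, hi, hj⟩ := fwdList_complete (h.gdark s hs) hf
  have hlt := fwd_idx hf
  have hms : m.testBit (idx s) = true := (h.geese s).1 hs
  have hmt : m.testBit (idx t) = false := by
    cases h3 : m.testBit (idx t) with
    | false => rfl
    | true => exact absurd ((h.geese t).2 h3) ht
  refine ⟨mv m (idx s) (idx t), ?_, ?_⟩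
  · have := h.goose_move hs hf ht
    have hq : q = ⟨insert t (p.geese.erase s), p.fox⟩ := by
      cases q
      simp only at h1 h2
      rw [h1, h2]
    rw [hq]
    exact this
  · by_cases hw : idx s < 8 * (W + 1)
    · right
      refine ⟨mv (Nat.mod m (wK W)) (idx s) (idx t), ?_, ?_⟩
      · refine allG_spec hc hi hj ?_ ?_ ?_
        · show (m % wK W).testBit (idx s) = true
          rw [wK_eq, Nat.testBit_mod_two_pow, hms]
          simp [hw]
        · show (m % wK W).testBit (idx t) = false
          rw [wK_eq, Nat.testBit_mod_two_pow, hmt]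
          simp
        · rw [← h.fox]
          exact fun e => htf (idx_inj e)
      · show mv m (idx s) (idx t) % wK W = mv (m % wK W) (idx s) (idx t) % wK W
        apply Nat.eq_of_testBit_eq
        intro k
        rw [wK_eq, Nat.testBit_mod_two_pow, Nat.testBit_mod_two_pow, testBit_mv, testBit_mv,
          Nat.testBit_mod_two_pow]
        by_cases hk : k < 8 * (W + 1)
        · simp [hk]
        · simp [hk]
    · left
      show mv m (idx s) (idx t) % wK W = m % wK W
      apply Nat.eq_of_testBit_eq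
      intro k
      rw [wK_eq, Nat.testBit_mod_two_pow, Nat.testBit_mod_two_pow, testBit_mv]
      by_cases hk : k < 8 * (W + 1)
      · have e1 : idx s ≠ k := by omega
        have e2 : idx t ≠ k := by omega
        simp [e1, e2]
      · simp [hk]

theorem left_lev {h : Val} (hl : lev h ≠ 0) : ∃ h', Val.Left h h' ∧ lev h' = lev h - 1 := by
  cases h with
  | top => exact ⟨Val.two, Val.Left.top, rfl⟩
  | two => exact ⟨Val.one, Val.Left.two, rfl⟩
  | one => exact ⟨Val.zero, Val.Left.one, rfl⟩
  | zero => exact absurd rfl hl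

/-- replies from the main table -/
theorem okM_spec {tm tw : NatMap} (htm : tm.all (chkM tm tw) = true)
    (htw : tw.all (chkW tw) = true) {p : Position} {m f c : ℕ} {h : Val}
    (hr : Rep p m f) (ho : okM tm tw m f (lev h) c = true) :
    (∃ h', Val.Left h h' ∧ TB tm tw h' p) ∨ (∃ q, foxMove p q ∧ TB tm tw h q) := by
  unfold okM at ho
  cases h1 : Nat.beq (Nat.div c 16) f with
  | true =>
    rw [h1, cond_true] at ho
    obtain ⟨h2, ho⟩ := bif_ft ho
    left
    have h3 : lev h ≠ 0 := by
      intro e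
      rw [e] at h2
      exact absurd h2 (by decide)
    obtain ⟨h', hl, he⟩ := left_lev h3
    have ho : inT tm tw m f (lev h - 1) (Nat.mod c 16) = true := ho
    rw [← he] at ho
    exact ⟨h', hl, TB_of_inT htm htw hr ho⟩
  | false =>
    rw [h1, cond_false] at ho
    obtain ⟨h2, ho⟩ := bif_tf ho
    right
    obtain ⟨q, hq, hrq⟩ := fox_exists hr h2
    exact ⟨q, hq, TB_of_inT htm htw hrq ho⟩

theorem surv_B {tm tw : NatMap} (htm : tm.all (chkM tm tw) = true)
    (htw : tw.all (chkW tw) = true) : Surv valGame foxAndGeese (TB tm tw) := by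
  constructor
  · intro (h : Val) (p : Position) (h' : Val) hT hm
    cases (show Val.Right h h' from hm)
    obtain ⟨m, f, hr, ⟨v, hc⟩ | ⟨W, v, hW, hc⟩⟩ := hT
    · unfold chkM' at hc
      obtain ⟨hc, _⟩ := bif_tf hc
      have hc : anyD 2048 (okM tm tw m f 3) 12 v = true := hc
      obtain ⟨c, hc⟩ := anyD_spec hc
      exact okM_spec (h := Val.top) htm htw hr hc
    · unfold chkW' at hc
      obtain ⟨hc, _⟩ := bif_tf hc
      obtain ⟨c, hc⟩ := anyD_spec hc
      right
      exact okW_spec htw hr rfl hc _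
  · intro (h : Val) (p : Position) (p' : Position) hT hm
    have hm : gooseMove p p' := hm
    obtain ⟨m, f, hr, ⟨v, hc⟩ | ⟨W, v, hW, hc⟩⟩ := hT
    · unfold chkM' at hc
      obtain ⟨_, hc⟩ := bif_tf hc
      obtain ⟨m', hr', hc⟩ := goose_all hr hm hc
      obtain ⟨c, hc⟩ := anyD_spec hc
      exact okM_spec htm htw hr' hc
    · unfold chkW' at hc
      obtain ⟨hp, hc⟩ := bif_tf hc
      right
      obtain ⟨m', hr', h1 | ⟨g', hc, h1⟩⟩ := goose_win hr hm hc
      · obtain ⟨c, hp⟩ := anyD_spec hp
        exact okW_spec htw hr' h1 hp _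
      · obtain ⟨c, hc⟩ := anyD_spec hc
        exact okW_spec htw hr' h1 hc _

/-! ### The geese have only finitely many moves -/

/-- the number of ranks that the geese can still advance -/
def room (p : Position) : ℕ := ∑ s ∈ p.geese, (7 - s.2.val)

theorem alt_fox : Alt foxAndGeese := by
  refine alt_of_measure (G := foxAndGeese) room ?_ ?_
  · intro (p : Position) (q : Position) h
    obtain ⟨s, hs, t, hf, ht, htf, h1, h2⟩ := (show gooseMove p q from h)
    unfold room
    rw [h1, Finset.sum_insert (fun e => ht (Finset.mem_of_mem_erase e)),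
      ← Finset.add_sum_erase _ _ hs]
    have h3 : t.2.val < 8 := t.2.isLt
    have h4 : t.2.val = s.2.val + 1 := hf.1
    omega
  · intro (p : Position) (q : Position) h
    have h : foxMove p q := h
    unfold room
    rw [h.2.2]

end Pool.Agent.R186.Fox
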