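import Mathlib

/-!
# Loopy partizan games, their values, and Fox and Geese
-/

set_option autoImplicit false

namespace Pool.Agent.R186.Fox

/-- A partizan game graph. Loops and infinite play are allowed: there is a type of positions,
and two relations, the moves of Left and the moves of Right. -/
structure GameGraph where
  /-- the positions -/
  Pos : Type
  /-- `left p q`: Left can move from `p` to `q` -/
  left : Pos → Pos → Prop
  /-- `right p q`: Right can move from `p` to `q` -/
  right : Pos → Pos → Prop

/-- A move in a sum of two components: a move in one of the components, the other one does not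
change. -/
def sumMove {A B : Type} (a : A → A → Prop) (b : B → B → Prop) (p q : A × B) : Prop :=
  (a p.1 q.1 ∧ q.2 = p.2) ∨ (q.1 = p.1 ∧ b p.2 q.2)

/-- The disjunctive sum of two game graphs. -/
def GameGraph.add (G H : GameGraph) : GameGraph where
  Pos := G.Pos × H.Pos
  left := sumMove G.left H.left
  right := sumMove G.right H.right

/-- `Wins mine yours b p`: in alternating play from the position `p`, the player whose moves are
`mine` can force that, after finitely many moves, the opponent (whose moves are `yours`) has to
move and cannot. This player has the move at `p` if `b = true`, and the opponent has the move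
at `p` if `b = false`. -/
inductive Wins {P : Type} (mine yours : P → P → Prop) : Bool → P → Prop
  | move {p q : P} : mine p q → Wins mine yours false q → Wins mine yours true p
  | wait {p : P} : (∀ q, yours p q → Wins mine yours true q) → Wins mine yours false p

/-- Left wins the position `p` (Left moves first if `b = true`, Right moves first if
`b = false`). -/
def GameGraph.LeftWins (G : GameGraph) (b : Bool) (p : G.Pos) : Prop := Wins G.left G.right b p

/-- Right wins the position `p` (Right moves first if `b = true`, Left moves first if
`b = false`). -/
def GameGraph.RightWins (G : GameGraph) (b : Bool) (p : G.Pos) : Prop := Wins G.right G.left b p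

/-- Equality of the values of the positions `g` of `G` and `h` of `H` in the theory of loopy
games: for every loopy game `x`, the sums `g + x` and `h + x` have the same outcome (win for
Left, win for Right, or draw by infinite play), whoever moves first. -/
def Equal (G : GameGraph) (g : G.Pos) (H : GameGraph) (h : H.Pos) : Prop :=
  ∀ (X : GameGraph) (x : X.Pos) (b : Bool),
    ((G.add X).LeftWins b (g, x) ↔ (H.add X).LeftWins b (h, x)) ∧
      ((G.add X).RightWins b (g, x) ↔ (H.add X).RightWins b (h, x))

/-- A position is a stopper if no infinite alternating run (with either player moving first)
starts at a position that can be reached from it. -/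
def IsStopper (G : GameGraph) (g : G.Pos) : Prop :=
  ∀ r : ℕ → G.Pos, Relation.ReflTransGen (fun a b => G.left a b ∨ G.right a b) g (r 0) →
    ¬ (∀ n, G.left (r (2 * n)) (r (2 * n + 1)) ∧ G.right (r (2 * n + 1)) (r (2 * n + 2))) ∧
    ¬ (∀ n, G.right (r (2 * n)) (r (2 * n + 1)) ∧ G.left (r (2 * n + 1)) (r (2 * n + 2)))

/-! ### Fox and Geese -/

/-- The squares of the `8 × 8` board: file (`0` for a, ..., `7` for h) and rank (`0` for the
rank 1, ..., `7` for the rank 8). -/
abbrev Square := Fin 8 × Fin 8

/-- `t` is one of the (at most two) squares diagonally adjacent to `s` and one rank higher. -/
def Forward (s t : Square) : Prop :=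
  t.2.val = s.2.val + 1 ∧ (t.1.val = s.1.val + 1 ∨ s.1.val = t.1.val + 1)

/-- A position of Fox and Geese: the set of squares of the geese and the square of the fox. -/
structure Position where
  /-- the squares of the geese -/
  geese : Finset Square
  /-- the square of the fox -/
  fox : Square

/-- Left moves one goose one square diagonally forward to an empty square. -/
def gooseMove (p q : Position) : Prop :=
  ∃ s ∈ p.geese, ∃ t, Forward s t ∧ t ∉ p.geese ∧ t ≠ p.fox ∧
    q.geese = insert t (p.geese.erase s) ∧ q.fox = p.fox

/-- Right moves the fox one square diagonally (forward or backward) to an empty square. -/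
def foxMove (p q : Position) : Prop :=
  (Forward p.fox q.fox ∨ Forward q.fox p.fox) ∧ q.fox ∉ p.geese ∧ q.geese = p.geese

/-- The game Fox and Geese: Left has the geese and Right has the fox. -/
def foxAndGeese : GameGraph := ⟨Position, gooseMove, foxMove⟩

/-- The starting position: geese on a1, c1, e1, g1, and the fox on d8. -/
def start : Position := ⟨{(0, 0), (2, 0), (4, 0), (6, 0)}, (3, 7)⟩

/-! ### The value -/

/-- The positions of the stopper `{2 | pass}`. -/
inductive Val : Type
  | top : Val
  | two : Val
  | one : Val
  | zero : Val

/-- Left's moves: from `top` to `2`, from `2` to `1`, from `1` to `0`. -/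
inductive Val.Left : Val → Val → Prop
  | top : Val.Left Val.top Val.two
  | two : Val.Left Val.two Val.one
  | one : Val.Left Val.one Val.zero

/-- Right's only move: from `top` to `top`. -/
inductive Val.Right : Val → Val → Prop
  | top : Val.Right Val.top Val.top

/-- The game graph of the stopper `V = {2 | V}`, where `V = Val.top`. -/
def valGame : GameGraph := ⟨Val, Val.Left, Val.Right⟩

/-- The integers `0, 1, 2, ...` as games: from `n + 1` Left can move to `n`, and Right has no
move. -/
def natGame : GameGraph := ⟨ℕ, fun a b => a = b + 1, fun _ _ => False⟩

/-- The positions `over = {0 | over}` (this is `true`) and `0` (this is `false`): Left can move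
from `over` to `0` and Right can move from `over` to `over`. This is `over = 1/on`. -/
def overGame : GameGraph :=
  ⟨Bool, fun a b => a = true ∧ b = false, fun a b => a = true ∧ b = true⟩

end Pool.Agent.R186.Fox
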