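import Pool.Agent.R186.Fox.MCheck0

/-!
# Certificate B for Fox and Geese: main table (kernel check, all parts)
-/

set_option autoImplicit false

namespace Pool.Agent.R186.Fox.MCheck

open MData

theorem allNode {p : ℕ → ℕ → Bool} {l r : NatMap} {k v : ℕ} (h : p k v = true)
    (hl : l.all p = true) (hr : r.all p = true) : (NatMap.node l k v r).all p = true := by
  rw [NatMap.all, h, hl, hr]
  rfl

theorem all : table.all (chkM MData.table WData.table) = true :=
  (allNode (by decide +kernel) (allNode (by decide +kernel) (allNode (by decide +kernel) h0 h1) (allNode (by decide +kernel) h2 h3)) (allNode (by decide +kernel) (allNode (by decide +kernel) h4 h5) (allNode (by decide +kernel) h6 h7)))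

end Pool.Agent.R186.Fox.MCheck
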