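import Pool.Agent.R186.Fox.Cert
import Pool.Agent.R186.Fox.WData
import Pool.Agent.R186.Fox.MData

/-!
# Certificate B for Fox and Geese: main table (kernel check, part 0)
-/

set_option autoImplicit false

namespace Pool.Agent.R186.Fox.MCheck

open MData

theorem h0 : c0.all (chkM MData.table WData.table) = true := by decide +kernel

theorem h1 : c1.all (chkM MData.table WData.table) = true := by decide +kernel

theorem h2 : c2.all (chkM MData.table WData.table) = true := by decide +kernel

theorem h3 : c3.all (chkM MData.table WData.table) = true := by decide +kernel

theorem h4 : c4.all (chkM MData.table WData.table) = true := by decide +kernel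

theorem h5 : c5.all (chkM MData.table WData.table) = true := by decide +kernel

theorem h6 : c6.all (chkM MData.table WData.table) = true := by decide +kernel

theorem h7 : c7.all (chkM MData.table WData.table) = true := by decide +kernel

end Pool.Agent.R186.Fox.MCheck
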