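import Pool.Agent.R186.Fox.Theory
import Pool.Agent.R186.NatTree

/-!
# Coding of positions of Fox and Geese by natural numbers, and the tests for the kernel
-/

set_option autoImplicit false

namespace Pool.Agent.R186.Fox

/-! ### Coding -/

/-- the number of a square -/
def idx (s : Square) : ℕ := 8 * s.2.val + s.1.val

theorem idx_lt (s : Square) : idx s < 64 := by
  have := s.1.isLt
  have := s.2.isLt
  unfold idx
  omega

theorem idx_inj {s t : Square} (h : idx s = idx t) : s = t := by
  have h1 := s.1.isLt
  have h2 := s.2.isLt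
  have h3 := t.1.isLt
  have h4 := t.2.isLt
  unfold idx at h
  refine Prod.ext (Fin.ext ?_) (Fin.ext ?_) <;> omega

/-- dark squares -/
def Dark (s : Square) : Prop := (s.1.val + s.2.val) % 2 = 0

/-- the Boolean version, for the number of a square -/
def darkB (i : ℕ) : Bool := Nat.beq (Nat.mod (Nat.add (Nat.div i 8) i) 2) 0

theorem darkB_idx (s : Square) : darkB (idx s) = true ↔ Dark s := by
  have h1 := s.1.isLt
  have h2 := s.2.isLt
  unfold darkB Dark idx
  rw [Nat.beq_eq]
  show ((8 * s.2.val + s.1.val) / 8 + (8 * s.2.val + s.1.val)) % 2 = 0 ↔ _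
  have h3 : (8 * s.2.val + s.1.val) / 8 = s.2.val := by omega
  rw [h3]
  omega

theorem exists_sq {i : ℕ} (h : i < 64) : ∃ s : Square, idx s = i := by
  refine ⟨(⟨i % 8, by omega⟩, ⟨i / 8, by omega⟩), ?_⟩
  unfold idx
  simp only
  omega

/-- bit test -/
def tb (m i : ℕ) : Bool := Nat.beq (Nat.land (Nat.shiftRight m i) 1) 1

theorem tb_eq (m i : ℕ) : tb m i = m.testBit i := by
  unfold tb Nat.testBit
  show Nat.beq ((m >>> i) &&& 1) 1 = (1 &&& m >>> i != 0)
  rw [Nat.and_comm 1, Nat.and_one_is_mod]
  rcases Nat.mod_two_eq_zero_or_one (m >>> i) with h | h <;> rw [h] <;> rfl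

/-- the effect of moving a goose from `i` to `j` -/
def mv (m i j : ℕ) : ℕ := Nat.xor m (Nat.xor (Nat.pow 2 i) (Nat.pow 2 j))

theorem testBit_mv (m i j k : ℕ) :
    (mv m i j).testBit k = (m.testBit k ^^ ((decide (i = k)) ^^ (decide (j = k)))) := by
  show (m ^^^ (2 ^ i ^^^ 2 ^ j)).testBit k = _
  rw [Nat.testBit_xor, Nat.testBit_xor, Nat.testBit_two_pow, Nat.testBit_two_pow]

/-- one step forward, for numbers of dark squares -/
def fwdB (i j : ℕ) : Bool := bif Nat.blt j 64 then
    (bif darkB j then (bif Nat.beq j (Nat.add i 7) then true else Nat.beq j (Nat.add i 9))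
      else false) else false

theorem fwdB_spec {s : Square} {j : ℕ} (hs : Dark s) (h : fwdB (idx s) j = true) :
    ∃ t : Square, idx t = j ∧ Dark t ∧ Forward s t := by
  unfold fwdB at h
  cases h1 : Nat.blt j 64 with
  | false => rw [h1] at h; exact absurd h (by simp)
  | true =>
    rw [h1, cond_true] at h
    cases h2 : darkB j with
    | false => rw [h2] at h; exact absurd h (by simp)
    | true =>
      rw [h2, cond_true] at h
      have h3 : j < 64 := by rwa [Nat.blt_eq] at h1
      obtain ⟨t, ht⟩ := exists_sq h3
      have hd : Dark t := by rw [← darkB_idx, ht]; exact h2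
      refine ⟨t, ht, hd, ?_⟩
      have h4 : j = idx s + 7 ∨ j = idx s + 9 := by
        cases h5 : Nat.beq j (Nat.add (idx s) 7) with
        | true => left; exact Nat.eq_of_beq_eq_true h5
        | false => rw [h5, cond_false] at h; right; exact Nat.eq_of_beq_eq_true h
      have a1 := s.1.isLt
      have a2 := s.2.isLt
      have a3 := t.1.isLt
      have a4 := t.2.isLt
      unfold Dark at hs hd
      unfold idx at ht h4
      unfold Forward
      omega

theorem fwd_idx {s t : Square} (h : Forward s t) : idx t = idx s + 7 ∨ idx t = idx s + 9 := by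
  unfold Forward at h
  unfold idx
  omega

theorem Forward.dark {s t : Square} (h : Forward s t) : Dark s ↔ Dark t := by
  unfold Forward at h
  unfold Dark
  omega

theorem fwdB_of {s t : Square} (h : Forward s t) (hs : Dark s) : fwdB (idx s) (idx t) = true := by
  unfold fwdB
  have h1 : Nat.blt (idx t) 64 = true := by rw [Nat.blt_eq]; exact idx_lt t
  have h2 : darkB (idx t) = true := by rw [darkB_idx]; exact h.dark.1 hs
  rw [h1, h2, cond_true, cond_true]
  rcases fwd_idx h with h3 | h3
  · have : Nat.beq (idx t) (Nat.add (idx s) 7) = true := by rw [h3, Nat.beq_eq]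
    rw [this]
    rfl
  · cases Nat.beq (idx t) (Nat.add (idx s) 7) with
    | true => rfl
    | false => rw [cond_false, h3, Nat.beq_eq]

/-- a position is coded by the bit mask of the geese and the number of the square of the fox -/
structure Rep (p : Position) (m f : ℕ) : Prop where
  fox : idx p.fox = f
  dark : Dark p.fox
  geese : ∀ s, s ∈ p.geese ↔ m.testBit (idx s) = true
  gdark : ∀ s ∈ p.geese, Dark s

theorem Rep.fox_move {p : Position} {m f : ℕ} (h : Rep p m f) {t : Square} (ht : Dark t) :
    Rep ⟨p.geese, t⟩ m (idx t) := ⟨rfl, ht, h.geese, h.gdark⟩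

theorem Rep.goose_move {p : Position} {m f : ℕ} (h : Rep p m f) {s t : Square}
    (hs : s ∈ p.geese) (hf : Forward s t) (ht : t ∉ p.geese) :
    Rep ⟨insert t (p.geese.erase s), p.fox⟩ (mv m (idx s) (idx t)) f := by
  refine ⟨h.fox, h.dark, fun u => ?_, fun u hu => ?_⟩
  · show u ∈ insert t (p.geese.erase s) ↔ _
    rw [testBit_mv, Finset.mem_insert, Finset.mem_erase]
    have hst : s ≠ t := fun e => ht (e ▸ hs)
    have hs' : m.testBit (idx s) = true := (h.geese s).1 hs
    have ht' : m.testBit (idx t) = false := by
      cases h1 : m.testBit (idx t) with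
      | false => rfl
      | true => exact absurd ((h.geese t).2 h1) ht
    by_cases h1 : u = t
    · subst h1
      have h2 : decide (idx s = idx u) = false :=
        decide_eq_false (fun e => hst (idx_inj e))
      rw [ht', h2]
      simp
    · by_cases h2 : u = s
      · subst h2
        have h3 : decide (idx t = idx u) = false :=
          decide_eq_false (fun e => h1 (idx_inj e).symm)
        rw [hs', h3]
        simp [h1]
      · have h3 : decide (idx t = idx u) = false :=
          decide_eq_false (fun e => h1 (idx_inj e).symm)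
        have h4 : decide (idx s = idx u) = false :=
          decide_eq_false (fun e => h2 (idx_inj e).symm)
        rw [h3, h4, h.geese u]
        simp [h1, h2]
  · rcases Finset.mem_insert.1 hu with hu | hu
    · subst hu
      exact hf.dark.1 (h.gdark s hs)
    · exact h.gdark u (Finset.mem_of_mem_erase hu)

/-! ### Searching a list of digits -/

/-- some digit (in base `B`, all digits are shifted by one) of `v` satisfies `q` -/
def anyD (B : ℕ) (q : ℕ → Bool) : ℕ → ℕ → Bool
  | 0, _ => false
  | n + 1, v => bif Nat.beq v 0 then false else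
      (bif q (Nat.pred (Nat.mod v B)) then true else anyD B q n (Nat.div v B))

theorem anyD_spec {B : ℕ} {q : ℕ → Bool} {n v : ℕ} (h : anyD B q n v = true) :
    ∃ c, q c = true := by
  induction n generalizing v with
  | zero => exact absurd h (by simp [anyD])
  | succ n ih =>
    rw [anyD] at h
    cases h1 : Nat.beq v 0 with
    | true => rw [h1, cond_true] at h; exact absurd h (by simp)
    | false =>
      rw [h1, cond_false] at h
      cases h2 : q (Nat.pred (Nat.mod v B)) with
      | true => exact ⟨_, h2⟩
      | false =>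
        rw [h2, cond_false] at h
        exact ih h

/-- membership in the domain of a map -/
def has (t : NatMap) (k : ℕ) : Bool := Nat.blt 0 (NatMap.get 0 t k)

theorem has_spec {p : ℕ → ℕ → Bool} {t : NatMap} (h : t.all p = true) {k : ℕ}
    (hk : has t k = true) : ∃ v, p k v = true := by
  rcases NatMap.of_all (d := 0) h k with h1 | h1
  · unfold has at hk
    rw [h1] at hk
    exact absurd hk (by decide)
  · exact ⟨_, h1⟩

/-! ### Loops over moves -/

/-- test for all goose moves of the goose on `i` -/
def allT (m f : ℕ) (q : ℕ → Bool) (i : ℕ) : List ℕ → Bool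
  | [] => true
  | j :: l => bif (bif tb m j then true else (bif Nat.beq j f then true else q (mv m i j)))
      then allT m f q i l else false

/-- test for all goose moves -/
def allG (m f : ℕ) (q : ℕ → Bool) : List (ℕ × List ℕ) → Bool
  | [] => true
  | (i, js) :: l => bif (bif tb m i then allT m f q i js else true) then allG m f q l else false

theorem allT_spec {m f : ℕ} {q : ℕ → Bool} {i : ℕ} {l : List ℕ} (h : allT m f q i l = true)
    {j : ℕ} (hj : j ∈ l) (h1 : m.testBit j = false) (h2 : j ≠ f) : q (mv m i j) = true := by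
  induction l with
  | nil => exact absurd hj (by simp)
  | cons a l ih =>
    rw [allT] at h
    cases h3 : (bif tb m a then true else (bif Nat.beq a f then true else q (mv m i a))) with
    | false => rw [h3] at h; exact absurd h (by simp)
    | true =>
      rw [h3, cond_true] at h
      rcases List.mem_cons.1 hj with rfl | hj
      · rw [tb_eq, h1, cond_false] at h3
        have h4 : Nat.beq j f = false := by
          cases h5 : Nat.beq j f with
          | false => rfl
          | true => exact absurd (Nat.eq_of_beq_eq_true h5) h2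
        rw [h4, cond_false] at h3
        exact h3
      · exact ih h hj

theorem allG_spec {m f : ℕ} {q : ℕ → Bool} {l : List (ℕ × List ℕ)} (h : allG m f q l = true)
    {i j : ℕ} {js : List ℕ} (hi : (i, js) ∈ l) (hj : j ∈ js) (h0 : m.testBit i = true)
    (h1 : m.testBit j = false) (h2 : j ≠ f) : q (mv m i j) = true := by
  induction l with
  | nil => exact absurd hi (by simp)
  | cons a l ih =>
    obtain ⟨a, as⟩ := a
    rw [allG] at h
    cases h3 : (bif tb m a then allT m f q a as else true) with
    | false => rw [h3] at h; exact absurd h (by simp)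
    | true =>
      rw [h3, cond_true] at h
      rcases List.mem_cons.1 hi with h4 | hi
      · obtain ⟨rfl, rfl⟩ := Prod.mk.inj h4
        rw [tb_eq, h0, cond_true] at h3
        exact allT_spec h3 hj h1 h2
      · exact ih h hi

/-- all forward moves between dark squares -/
def fwdList : List (ℕ × List ℕ) :=
  [(0, [9]), (2, [9, 11]), (4, [11, 13]), (6, [13, 15]),
   (9, [16, 18]), (11, [18, 20]), (13, [20, 22]), (15, [22]),
   (16, [25]), (18, [25, 27]), (20, [27, 29]), (22, [29, 31]),
   (25, [32, 34]), (27, [34, 36]), (29, [36, 38]), (31, [38]),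
   (32, [41]), (34, [41, 43]), (36, [43, 45]), (38, [45, 47]),
   (41, [48, 50]), (43, [50, 52]), (45, [52, 54]), (47, [54]),
   (48, [57]), (50, [57, 59]), (52, [59, 61]), (54, [61, 63])]

theorem fwdList_test : ((List.range 64).all fun i => (List.range 64).all fun j =>
    !(darkB i && fwdB i j) || fwdList.any (fun e => e.1 == i && e.2.contains j)) = true := by
  decide +kernel

theorem fwdList_aux (i : ℕ) (hi : i < 64) (j : ℕ) (hj : j < 64) (h1 : darkB i = true)
    (h2 : fwdB i j = true) : ∃ e ∈ fwdList, e.1 = i ∧ j ∈ e.2 := by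
  have h := fwdList_test
  rw [List.all_eq_true] at h
  have h3 := h i (List.mem_range.2 hi)
  rw [List.all_eq_true] at h3
  have h4 := h3 j (List.mem_range.2 hj)
  rw [h1, h2] at h4
  have h5 : fwdList.any (fun e => e.1 == i && e.2.contains j) = true := h4
  rw [List.any_eq_true] at h5
  obtain ⟨e, he, h6⟩ := h5
  rw [Bool.and_eq_true] at h6
  refine ⟨e, he, by simpa using h6.1, by simpa using h6.2⟩

theorem fwdList_complete {s t : Square} (hs : Dark s) (h : Forward s t) :
    ∃ js, (idx s, js) ∈ fwdList ∧ idx t ∈ js := by
  obtain ⟨⟨i, js⟩, h1, h2, h3⟩ := fwdList_aux (idx s) (idx_lt s) (idx t) (idx_lt t)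
    ((darkB_idx s).2 hs) (fwdB_of h hs)
  have h2 : i = idx s := h2
  subst h2
  exact ⟨js, h1, h3⟩

/-- all goose moves of a coded position -/
theorem goose_all {p q : Position} {m f : ℕ} (h : Rep p m f) (hm : gooseMove p q)
    {c : ℕ → Bool} (hc : allG m f c fwdList = true) :
    ∃ m', Rep q m' f ∧ c m' = true := by
  obtain ⟨s, hs, t, hf, ht, htf, h1, h2⟩ := hm
  obtain ⟨js, hi, hj⟩ := fwdList_complete (h.gdark s hs) hf
  refine ⟨mv m (idx s) (idx t), ?_, ?_⟩
  · have := h.goose_move hs hf ht
    have hq : q = ⟨insert t (p.geese.erase s), p.fox⟩ := by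
      cases q
      simp only at h1 h2
      rw [h1, h2]
    rw [hq]
    exact this
  · refine allG_spec hc hi hj ((h.geese s).1 hs) ?_ ?_
    · cases h3 : m.testBit (idx t) with
      | false => rfl
      | true => exact absurd ((h.geese t).2 h3) ht
    · rw [← h.fox]
      exact fun e => htf (idx_inj e)

/-- a goose move is possible -/
def gOk (m f i j : ℕ) : Bool :=
  bif tb m i then (bif tb m j then false else (bif Nat.beq j f then false else
    (bif Nat.blt i 64 then fwdB i j else false))) else false

theorem bif_tf {a b : Bool} (h : (bif a then b else false) = true) : a = true ∧ b = true := by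
  cases a <;> simp_all

theorem bif_ft {a b : Bool} (h : (bif a then false else b) = true) : a = false ∧ b = true := by
  cases a <;> simp_all

theorem goose_exists {p : Position} {m f i j : ℕ} (h : Rep p m f) (ho : gOk m f i j = true) :
    ∃ q, gooseMove p q ∧ Rep q (mv m i j) f := by
  unfold gOk at ho
  obtain ⟨h1, ho⟩ := bif_tf ho
  obtain ⟨h2, ho⟩ := bif_ft ho
  obtain ⟨h3, ho⟩ := bif_ft ho
  obtain ⟨h4, ho⟩ := bif_tf ho
  rw [tb_eq] at h1 h2
  rw [Nat.blt_eq] at h4
  obtain ⟨s, rfl⟩ := exists_sq h4
  have hs : s ∈ p.geese := (h.geese s).2 h1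
  obtain ⟨t, rfl, _, hf⟩ := fwdB_spec (h.gdark s hs) ho
  have ht : t ∉ p.geese := fun e => by
    have := (h.geese t).1 e
    rw [h2] at this
    exact absurd this (by simp)
  refine ⟨⟨insert t (p.geese.erase s), p.fox⟩, ⟨s, hs, t, hf, ht, ?_, rfl, rfl⟩,
    h.goose_move hs hf ht⟩
  intro e
  rw [e, h.fox, Nat.beq_refl] at h3
  exact absurd h3 (by simp)

/-- the fox can move from `f` to `t` -/
def fOk (m f t : ℕ) : Bool :=
  bif tb m t then false else
    (bif Nat.blt t 64 then (bif fwdB f t then true else (bif darkB t then fwdB t f else false))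
      else false)

theorem fox_exists {p : Position} {m f t : ℕ} (h : Rep p m f) (ho : fOk m f t = true) :
    ∃ q, foxMove p q ∧ Rep q m t := by
  unfold fOk at ho
  obtain ⟨h1, ho⟩ := bif_ft ho
  obtain ⟨h2, ho⟩ := bif_tf ho
  rw [tb_eq] at h1
  rw [Nat.blt_eq] at h2
  obtain ⟨u, rfl⟩ := exists_sq h2
  have hu : u ∉ p.geese := fun e => by
    have := (h.geese u).1 e
    rw [h1] at this
    exact absurd this (by simp)
  cases h3 : fwdB f (idx u) with
  | true =>
    rw [← h.fox] at h3
    obtain ⟨t, ht, hd, hf⟩ := fwdB_spec h.dark h3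
    have ht := idx_inj ht
    subst ht
    exact ⟨⟨p.geese, t⟩, ⟨Or.inl hf, hu, rfl⟩, h.fox_move hd⟩
  | false =>
    rw [h3, cond_false] at ho
    obtain ⟨h4, ho⟩ := bif_tf ho
    rw [darkB_idx] at h4
    rw [← h.fox] at ho
    obtain ⟨t, ht, _, hf⟩ := fwdB_spec h4 ho
    have ht := idx_inj ht
    subst ht
    exact ⟨⟨p.geese, u⟩, ⟨Or.inr hf, hu, rfl⟩, h.fox_move h4⟩

/-- a test for one possible move of the fox -/
def oneF (m : ℕ) (q : ℕ → Bool) (t : ℕ) : Bool :=
  bif Nat.blt t 64 then (bif darkB t then (bif tb m t then true else q t) else true) else true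

/-- a test for all moves of the fox -/
def allF (m f : ℕ) (q : ℕ → Bool) : Bool :=
  bif oneF m q (Nat.add f 7) then (bif oneF m q (Nat.add f 9) then
    (bif (bif Nat.blt f 7 then true else oneF m q (Nat.sub f 7)) then
      (bif Nat.blt f 9 then true else oneF m q (Nat.sub f 9)) else false) else false) else false

theorem fox_all {p q : Position} {m f : ℕ} (h : Rep p m f) (hm : foxMove p q) {c : ℕ → Bool}
    (hc : allF m f c = true) : ∃ t, Rep q m t ∧ c t = true := by
  obtain ⟨h1, h2, h3⟩ := hm
  have hq : q = ⟨p.geese, q.fox⟩ := by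
    cases q
    simp only at h3
    rw [h3]
  have hd : Dark q.fox := by
    rcases h1 with h1 | h1
    · exact h1.dark.1 h.dark
    · exact h1.dark.2 h.dark
  refine ⟨idx q.fox, ?_, ?_⟩
  · rw [hq]
    exact h.fox_move hd
  · have key : ∀ t, t = idx q.fox → oneF m c t = true → c (idx q.fox) = true := by
      intro t ht ho
      subst ht
      unfold oneF at ho
      have e1 : Nat.blt (idx q.fox) 64 = true := by rw [Nat.blt_eq]; exact idx_lt _
      have e2 : tb m (idx q.fox) = false := by
        rw [tb_eq]
        cases h4 : m.testBit (idx q.fox) with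
        | false => rfl
        | true => exact absurd ((h.geese _).2 h4) h2
      rw [e1, cond_true, (darkB_idx _).2 hd, cond_true, e2, cond_false] at ho
      exact ho
    unfold allF at hc
    obtain ⟨c1, hc⟩ := bif_tf hc
    obtain ⟨c2, hc⟩ := bif_tf hc
    obtain ⟨c3, hc⟩ := bif_tf hc
    rw [← h.fox] at c1 c2 c3 hc
    rcases h1 with h1 | h1
    · rcases fwd_idx h1 with h4 | h4
      · exact key _ h4.symm c1
      · exact key _ h4.symm c2
    · rcases fwd_idx h1 with h4 | h4
      · have e : Nat.blt (idx p.fox) 7 = false := by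
          cases h5 : Nat.blt (idx p.fox) 7 with
          | false => rfl
          | true => rw [Nat.blt_eq] at h5; omega
        rw [e, cond_false] at c3
        refine key _ ?_ c3
        show idx p.fox - 7 = _
        omega
      · have e : Nat.blt (idx p.fox) 9 = false := by
          cases h5 : Nat.blt (idx p.fox) 9 with
          | false => rfl
          | true => rw [Nat.blt_eq] at h5; omega
        rw [e, cond_false] at hc
        refine key _ ?_ hc
        show idx p.fox - 9 = _
        omega

end Pool.Agent.R186.Fox
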