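import Pool.Agent.R186.Fox.Defs

/-!
# The criterion for equality of loopy games
-/

set_option autoImplicit false

namespace Pool.Agent.R186.Fox

theorem transfer {G H X : Type} {mG yG : G → G → Prop} {mH yH : H → H → Prop}
    {mX yX : X → X → Prop} (S : G → H → Prop)
    (h1 : ∀ g h g', S g h → mG g g' →
      (∃ g'', yG g' g'' ∧ S g'' h) ∨ (∃ h', mH h h' ∧ S g' h'))
    (h2 : ∀ g h h', S g h → yH h h' →
      (∃ g', yG g g' ∧ S g' h') ∨ (∃ h'', mH h' h'' ∧ S g h''))
    (acc : ∀ h, Acc (fun b a => ∃ r, yH a r ∧ mH r b) h) (b : Bool) (p : G × X)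
    (w : Wins (sumMove mG mX) (sumMove yG yX) b p) :
    (∀ h, S p.1 h → Wins (sumMove mH mX) (sumMove yH yX) b (h, p.2)) ∧
      (b = false → ∀ g2, yG p.1 g2 → ∀ h, S g2 h →
        Wins (sumMove mH mX) (sumMove yH yX) true (h, p.2)) := by
  induction w with
  | @move p q hm _ ih =>
    refine ⟨fun h hS => ?_, fun hb => absurd hb (by simp)⟩
    rcases hm with ⟨hm, hq⟩ | ⟨hq, hm⟩
    · rcases h1 _ _ _ hS hm with ⟨g'', hy, hS'⟩ | ⟨h', hm', hS'⟩
      · rw [← hq]
        exact ih.2 rfl g'' hy h hS'
      · refine Wins.move (q := (h', q.2)) (Or.inl ⟨hm', hq⟩) (ih.1 h' hS')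
    · refine Wins.move (q := (h, q.2)) (Or.inr ⟨rfl, hm⟩) (ih.1 h ?_)
      rw [hq]
      exact hS
  | @wait p _ ih =>
    refine ⟨fun h => ?_, fun _ g2 hy h hS => ?_⟩
    · induction acc h with
      | intro h _ ih2 =>
        intro hS
        refine Wins.wait ?_
        rintro ⟨k, x⟩ (⟨hy, hx⟩ | ⟨hk, hy⟩)
        · rcases h2 _ _ _ hS hy with ⟨g', hy', hS'⟩ | ⟨h'', hm, hS'⟩
          · have := (ih (g', x) (Or.inl ⟨hy', hx⟩)).1 k hS'
            exact this
          · have := ih2 h'' ⟨k, hy, hm⟩ hS'
            refine Wins.move (q := (h'', x)) (Or.inl ⟨hm, rfl⟩) ?_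
            have hx' : x = p.2 := hx
            rw [hx']
            exact this
        · have hk' : k = h := hk
          have := (ih (p.1, x) (Or.inr ⟨rfl, hy⟩)).1 h hS
          rw [hk']
          exact this
    · exact (ih (g2, p.2) (Or.inl ⟨hy, rfl⟩)).1 h hS

/-- no infinite alternating runs, in the form needed in the proofs -/
structure Alt (G : GameGraph) : Prop where
  lr : ∀ g, Acc (fun b a => ∃ r, G.left a r ∧ G.right r b) g
  rl : ∀ g, Acc (fun b a => ∃ r, G.right a r ∧ G.left r b) g

/-- `S g h`: Left, moving second, survives `g - h` -/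
structure Surv (G H : GameGraph) (S : G.Pos → H.Pos → Prop) : Prop where
  c1 : ∀ g h g', S g h → G.right g g' →
    (∃ g'', G.left g' g'' ∧ S g'' h) ∨ (∃ h', H.right h h' ∧ S g' h')
  c2 : ∀ g h h', S g h → H.left h h' →
    (∃ g', G.left g g' ∧ S g' h') ∨ (∃ h'', H.right h' h'' ∧ S g h'')

theorem ge_right {G H : GameGraph} {S : G.Pos → H.Pos → Prop} (hS : Surv G H S) (aH : Alt H)
    {g : G.Pos} {h : H.Pos} (hgh : S g h) (X : GameGraph) (x : X.Pos) (b : Bool)
    (w : (G.add X).RightWins b (g, x)) : (H.add X).RightWins b (h, x) :=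
  (transfer S hS.c1 hS.c2 aH.lr b (g, x) w).1 h hgh

theorem ge_left {G H : GameGraph} {S : G.Pos → H.Pos → Prop} (hS : Surv G H S) (aG : Alt G)
    {g : G.Pos} {h : H.Pos} (hgh : S g h) (X : GameGraph) (x : X.Pos) (b : Bool)
    (w : (H.add X).LeftWins b (h, x)) : (G.add X).LeftWins b (g, x) :=
  (transfer (fun h g => S g h) (fun h g h' hs hm => (hS.c2 g h h' hs hm).symm)
    (fun h g g' hs hm => (hS.c1 g h g' hs hm).symm) aG.rl b (h, x) w).1 g hgh

theorem equal_of {G H : GameGraph} {S : G.Pos → H.Pos → Prop} {T : H.Pos → G.Pos → Prop}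
    (hS : Surv G H S) (hT : Surv H G T) (aG : Alt G) (aH : Alt H) {g : G.Pos} {h : H.Pos}
    (hgh : S g h) (hhg : T h g) : Equal G g H h := fun X x b =>
  ⟨⟨ge_left hT aH hhg X x b, ge_left hS aG hgh X x b⟩,
    ⟨ge_right hS aH hgh X x b, ge_right hT aG hhg X x b⟩⟩

theorem Equal.symm {G H : GameGraph} {g : G.Pos} {h : H.Pos} (e : Equal G g H h) :
    Equal H h G g := fun X x b => ⟨(e X x b).1.symm, (e X x b).2.symm⟩

theorem Equal.trans {G H K : GameGraph} {g : G.Pos} {h : H.Pos} {k : K.Pos}
    (e : Equal G g H h) (e' : Equal H h K k) : Equal G g K k := fun X x b =>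
  ⟨(e X x b).1.trans (e' X x b).1, (e X x b).2.trans (e' X x b).2⟩

theorem not_acc {α : Type} {r : α → α → Prop} {a : α} (h : Acc r a) :
    ∀ f : ℕ → α, f 0 = a → ¬ ∀ n, r (f (n + 1)) (f n) := by
  induction h with
  | intro a _ ih =>
    intro f hf hr
    refine ih (f 1) ?_ (fun n => f (n + 1)) rfl (fun n => hr (n + 1))
    rw [← hf]
    exact hr 0

theorem Alt.isStopper {G : GameGraph} (a : Alt G) (g : G.Pos) : IsStopper G g := by
  intro r _
  refine ⟨fun h => ?_, fun h => ?_⟩
  · refine not_acc (a.lr (r 0)) (fun n => r (2 * n)) rfl ?_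
    intro n
    exact ⟨r (2 * n + 1), (h n).1, (h n).2⟩
  · refine not_acc (a.rl (r 0)) (fun n => r (2 * n)) rfl ?_
    intro n
    exact ⟨r (2 * n + 1), (h n).1, (h n).2⟩

/-! ### The small games -/

/-- an `Alt` criterion: a measure that decreases with the moves of Left and does not increase
with the moves of Right -/
theorem alt_of_measure {G : GameGraph} (f : G.Pos → ℕ) (hl : ∀ a b, G.left a b → f b < f a)
    (hr : ∀ a b, G.right a b → f b ≤ f a) : Alt G := by
  refine ⟨fun g => ?_, fun g => ?_⟩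
  · have hs : Subrelation (fun b a => ∃ r, G.left a r ∧ G.right r b) (InvImage (· < ·) f) := by
      rintro b a ⟨r, h1, h2⟩
      exact lt_of_le_of_lt (hr _ _ h2) (hl _ _ h1)
    exact (hs.wf (InvImage.wf f Nat.lt_wfRel.wf)).apply g
  · have hs : Subrelation (fun b a => ∃ r, G.right a r ∧ G.left r b) (InvImage (· < ·) f) := by
      rintro b a ⟨r, h1, h2⟩
      exact lt_of_lt_of_le (hl _ _ h2) (hr _ _ h1)
    exact (hs.wf (InvImage.wf f Nat.lt_wfRel.wf)).apply g

theorem alt_val : Alt valGame := by
  refine alt_of_measure (G := valGame)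
    (fun v : Val => match v with | .top => 3 | .two => 2 | .one => 1 | .zero => 0) ?_ ?_
  · intro a b h
    cases (show Val.Left a b from h) <;> simp
  · intro a b h
    cases (show Val.Right a b from h)
    simp

theorem alt_twoOver : Alt (natGame.add overGame) := by
  refine alt_of_measure (G := natGame.add overGame)
    (fun v : ℕ × Bool => 2 * v.1 + (bif v.2 then 1 else 0)) ?_ ?_
  · intro (p : ℕ × Bool) (q : ℕ × Bool) h
    obtain ⟨a, b⟩ := p
    obtain ⟨c, d⟩ := q
    rcases (show sumMove natGame.left overGame.left (a, b) (c, d) from h) with h | h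
    · obtain ⟨h1, h2⟩ := h
      have h1 : a = c + 1 := h1
      have h2 : d = b := h2
      subst h1 h2
      simp
    · obtain ⟨h1, h2, h3⟩ := h
      have h1 : c = a := h1
      have h2 : b = true := h2
      have h3 : d = false := h3
      subst h1 h2 h3
      simp
  · intro (p : ℕ × Bool) (q : ℕ × Bool) h
    obtain ⟨a, b⟩ := p
    obtain ⟨c, d⟩ := q
    rcases (show sumMove natGame.right overGame.right (a, b) (c, d) from h) with h | h
    · exact absurd h.1 id
    · obtain ⟨h1, h2, h3⟩ := h
      have h1 : c = a := h1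
      have h2 : b = true := h2
      have h3 : d = true := h3
      subst h1 h2 h3
      exact le_refl _

/-- `V ≥ 2 + over` -/
def S1 : Val → ℕ × Bool → Prop
  | .top, (n, true) => n ≤ 2
  | .two, (n, false) => n ≤ 2
  | .one, (n, false) => n ≤ 1
  | .zero, (n, false) => n ≤ 0
  | _, _ => False

theorem surv_S1 : Surv valGame (natGame.add overGame) S1 := by
  constructor
  · intro (g : Val) (p : ℕ × Bool) (g' : Val) hS h
    obtain ⟨n, o⟩ := p
    cases (show Val.Right g g' from h)
    right
    cases o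
    · exact absurd hS id
    · exact ⟨(n, true), Or.inr ⟨rfl, rfl, rfl⟩, hS⟩
  · intro (g : Val) (p : ℕ × Bool) (q : ℕ × Bool) hS h
    obtain ⟨n, o⟩ := p
    obtain ⟨n', o'⟩ := q
    rcases h with h | h
    · obtain ⟨h1, h2⟩ := h
      have h1 : n = n' + 1 := h1
      have h2 : o' = o := h2
      subst h1 h2
      cases o'
      · left
        cases g
        · exact absurd hS id
        · have hS : n' + 1 ≤ 2 := hS
          exact ⟨Val.one, Val.Left.two, show n' ≤ 1 by omega⟩
        · have hS : n' + 1 ≤ 1 := hS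
          exact ⟨Val.zero, Val.Left.one, show n' ≤ 0 by omega⟩
        · have hS : n' + 1 ≤ 0 := hS
          omega
      · right
        refine ⟨(n', true), Or.inr ⟨rfl, rfl, rfl⟩, ?_⟩
        cases g
        · have hS : n' + 1 ≤ 2 := hS
          exact (show n' ≤ 2 by omega)
        · exact absurd hS id
        · exact absurd hS id
        · exact absurd hS id
    · obtain ⟨h1, h2, h3⟩ := h
      have h1 : n' = n := h1
      have h2 : o = true := h2
      have h3 : o' = false := h3
      subst h1 h2 h3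
      left
      cases g
      · exact ⟨Val.two, Val.Left.top, hS⟩
      · exact absurd hS id
      · exact absurd hS id
      · exact absurd hS id

/-- `2 + over ≥ V` -/
def S2 : ℕ × Bool → Val → Prop
  | (n, true), .top => 2 ≤ n
  | (n, false), .two => 2 ≤ n
  | (n, false), .one => 1 ≤ n
  | (_, false), .zero => True
  | _, _ => False

theorem surv_S2 : Surv (natGame.add overGame) valGame S2 := by
  constructor
  · intro (p : ℕ × Bool) (g : Val) (q : ℕ × Bool) hS h
    obtain ⟨n, o⟩ := p
    obtain ⟨n', o'⟩ := q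
    rcases h with h | h
    · exact absurd h.1 id
    · obtain ⟨h1, h2, h3⟩ := h
      have h1 : n' = n := h1
      have h2 : o = true := h2
      have h3 : o' = true := h3
      subst h1 h2 h3
      right
      cases g
      · exact ⟨Val.top, Val.Right.top, hS⟩
      · exact absurd hS id
      · exact absurd hS id
      · exact absurd hS id
  · intro (p : ℕ × Bool) (g : Val) (g' : Val) hS h
    obtain ⟨n, o⟩ := p
    cases (show Val.Left g g' from h) with
    | top =>
      cases o
      · exact absurd hS id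
      · left
        exact ⟨(n, false), Or.inr ⟨rfl, rfl, rfl⟩, hS⟩
    | two =>
      cases o
      · left
        have hS : 2 ≤ n := hS
        obtain ⟨k, rfl⟩ : ∃ k, n = k + 1 := ⟨n - 1, by omega⟩
        exact ⟨(k, false), Or.inl ⟨rfl, rfl⟩, show 1 ≤ k by omega⟩
      · exact absurd hS id
    | one =>
      cases o
      · left
        have hS : 1 ≤ n := hS
        obtain ⟨k, rfl⟩ : ∃ k, n = k + 1 := ⟨n - 1, by omega⟩
        exact ⟨(k, false), Or.inl ⟨rfl, rfl⟩, trivial⟩
      · exact absurd hS id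

theorem val_eq_twoOver :
    Equal valGame Val.top (natGame.add overGame) ((2, true) : ℕ × Bool) :=
  equal_of (g := Val.top) (h := ((2, true) : ℕ × Bool)) surv_S1 surv_S2 alt_val alt_twoOver
    (show (2 : ℕ) ≤ 2 from le_refl 2) (show (2 : ℕ) ≤ 2 from le_refl 2)

end Pool.Agent.R186.Fox
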