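import Pool.Agent.R186.Fox.WCheck0
import Pool.Agent.R186.Fox.WCheck1

/-!
# Certificate B for Fox and Geese: windows (kernel check, all parts)
-/

set_option autoImplicit false

namespace Pool.Agent.R186.Fox.WCheck

open WData

theorem allNode {p : ℕ → ℕ → Bool} {l r : NatMap} {k v : ℕ} (h : p k v = true)
    (hl : l.all p = true) (hr : r.all p = true) : (NatMap.node l k v r).all p = true := by
  rw [NatMap.all, h, hl, hr]
  rfl

theorem all : table.all (chkW WData.table) = true :=
  (allNode (by decide +kernel) (allNode (by decide +kernel) (allNode (by decide +kernel) (allNode (by decide +kernel) (allNode (by decide +kernel) h0 h1) (allNode (by decide +kernel) h2 h3)) (allNode (by decide +kernel) (allNode (by decide +kernel) h4 h5) (allNode (by decide +kernel) h6 h7))) (allNode (by decide +kernel) (allNode (by decide +kernel) (allNode (by decide +kernel) h8 h9) (allNode (by decide +kernel) h10 h11)) (allNode (by decide +kernel) (allNode (by decide +kernel) h12 h13) (allNode (by decide +kernel) h14 h15)))) (allNode (by decide +kernel) (allNode (by decide +kernel) (allNode (by decide +kernel) (allNode (by decide +kernel) h16 h17) (allNode (by decide +kernel) h18 h19)) (allNode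 (by decide +kernel) (allNode (by decide +kernel) h20 h21) (allNode (by decide +kernel) h22 h23))) (allNode (by decide +kernel) (allNode (by decide +kernel) (allNode (by decide +kernel) h24 h25) (allNode (by decide +kernel) h26 h27)) (allNode (by decide +kernel) (allNode (by decide +kernel) h28 h29) (allNode (by decide +kernel) h30 h31)))))

end Pool.Agent.R186.Fox.WCheck
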