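import Pool.Agent.R186.Fox.Cert
import Pool.Agent.R186.Fox.WData

/-!
# Certificate B for Fox and Geese: windows (kernel check, part 0)
-/

set_option autoImplicit false

namespace Pool.Agent.R186.Fox.WCheck

open WData

theorem h0 : c0.all (chkW WData.table) = true := by decide +kernel

theorem h1 : c1.all (chkW WData.table) = true := by decide +kernel

theorem h2 : c2.all (chkW WData.table) = true := by decide +kernel

theorem h3 : c3.all (chkW WData.table) = true := by decide +kernel

theorem h4 : c4.all (chkW WData.table) = true := by decide +kernel

theorem h5 : c5.all (chkW WData.table) = true := by decide +kernel

theorem h6 : c6.all (chkW WData.table) = true := by decide +kernel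

theorem h7 : c7.all (chkW WData.table) = true := by decide +kernel

theorem h8 : c8.all (chkW WData.table) = true := by decide +kernel

theorem h9 : c9.all (chkW WData.table) = true := by decide +kernel

theorem h10 : c10.all (chkW WData.table) = true := by decide +kernel

theorem h11 : c11.all (chkW WData.table) = true := by decide +kernel

theorem h12 : c12.all (chkW WData.table) = true := by decide +kernel

theorem h13 : c13.all (chkW WData.table) = true := by decide +kernel

theorem h14 : c14.all (chkW WData.table) = true := by decide +kernel

theorem h15 : c15.all (chkW WData.table) = true := by decide +kernel

end Pool.Agent.R186.Fox.WCheck
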